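import Pool.Agent.Helper11.PC.Defs

/-! # Finite sets of vertices of a tree are contained in finite convex sets (THULL) -/

namespace Pool.Agent.Helper79.PC

open Pool.Agent.Helper11.PC

universe u v w

/-- The interval between two vertices. -/
def Ivl {V : Type w} (T : SimpleGraph V) (o u : V) : Set V :=
  {c | T.dist o c + T.dist c u = T.dist o u}

theorem mem_Ivl {V : Type w} {T : SimpleGraph V} {o u c : V} :
    c ∈ Ivl T o u ↔ T.dist o c + T.dist c u = T.dist o u := Iff.rfl

section

variable {V : Type w} {T : SimpleGraph V} (hT : T.IsTree) (hB : TreeBtw T)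

include hT hB

theorem ivl_finite (o u : V) : (Ivl T o u).Finite := by
  refine Set.Finite.of_finite_image (f := fun c => T.dist o c) ?_ ?_
  · refine (Set.finite_Iic (T.dist o u)).subset ?_
    rintro _ ⟨c, hc, rfl⟩
    rw [mem_Ivl] at hc
    simp only [Set.mem_Iic]
    omega
  · intro a ha b hb hab
    rw [mem_Ivl] at ha hb
    simp only at hab
    have h1 := hB o u a b ha.symm hb.symm hab.le
    have h2 : T.dist a b = 0 := by omega
    exact hT.1.dist_eq_zero_iff.mp h2

theorem ivl_convex (o u : V) : GConvex T (Ivl T o u) := by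
  have key : ∀ a ∈ Ivl T o u, ∀ b ∈ Ivl T o u, T.dist o a ≤ T.dist o b → ∀ c,
      T.dist a c + T.dist c b = T.dist a b → c ∈ Ivl T o u := by
    intro a ha b hb hab c hc
    rw [mem_Ivl] at ha hb ⊢
    have h1 := hB o u a b ha.symm hb.symm hab
    have h2 := hT.1.dist_triangle (u := o) (v := a) (w := c)
    have h3 := hT.1.dist_triangle (u := c) (v := b) (w := u)
    have h4 := hT.1.dist_triangle (u := o) (v := c) (w := u)
    omega
  intro a ha b hb c hc
  rcases le_total (T.dist o a) (T.dist o b) with h | h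
  · exact key a ha b hb h c hc
  · refine key b hb a ha h c ?_
    rw [T.dist_comm (u := b) (v := c), T.dist_comm (u := c) (v := a),
      T.dist_comm (u := b) (v := a)]
    omega

omit hB in
theorem ivl_trans {o u a c : V} (ha : a ∈ Ivl T o u) (hc : c ∈ Ivl T o a) : c ∈ Ivl T o u := by
  rw [mem_Ivl] at *
  have h3 := hT.1.dist_triangle (u := c) (v := a) (w := u)
  have h4 := hT.1.dist_triangle (u := o) (v := c) (w := u)
  omega

end

theorem thull {V : Type w} {T : SimpleGraph V} (hT : T.IsTree) (hP : TreeProj T)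
    (hB : TreeBtw T) : TreeHull T := by
  intro U hU
  rcases U.eq_empty_or_nonempty with rfl | ⟨o, ho⟩
  · exact ⟨∅, Set.finite_empty, fun a ha => absurd ha (Set.notMem_empty a), subset_rfl⟩
  refine ⟨⋃ u ∈ U, Ivl T o u, hU.biUnion fun u _ => ivl_finite hT hB o u, ?_, ?_⟩
  · intro a ha b hb c hc
    rw [Set.mem_iUnion₂] at ha hb ⊢
    obtain ⟨u, hu, ha⟩ := ha
    obtain ⟨u', hu', hb⟩ := hb
    have hKo : o ∈ Ivl T o a := by
      rw [mem_Ivl, SimpleGraph.dist_self]; omega
    have hKa : a ∈ Ivl T o a := by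
      rw [mem_Ivl, SimpleGraph.dist_self]; omega
    obtain ⟨p, hpK, hp⟩ := hP (Ivl T o a) (ivl_convex hT hB o a) ⟨o, hKo⟩ b
    have hpa := hp a hKa
    have hpo := hp o hKo
    have hba : T.dist b a = T.dist b c + T.dist c a := by
      rw [T.dist_comm (u := b) (v := a), T.dist_comm (u := b) (v := c),
        T.dist_comm (u := c) (v := a)]
      omega
    rcases le_total (T.dist b p) (T.dist b c) with h | h
    · have h1 := hB b a p c hpa hba h
      refine ⟨u, hu, ivl_trans hT ha ?_⟩
      exact ivl_convex hT hB o a p hpK a hKa c h1.symm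
    · have h1 := hB b a c p hba hpa h
      refine ⟨u', hu', ivl_trans hT hb ?_⟩
      rw [mem_Ivl]
      have h2 := hT.1.dist_triangle (u := c) (v := p) (w := o)
      have h3 := hT.1.dist_triangle (u := b) (v := c) (w := o)
      rw [T.dist_comm (u := o) (v := c), T.dist_comm (u := c) (v := b),
        T.dist_comm (u := o) (v := b)]
      omega
  · intro u hu
    rw [Set.mem_iUnion₂]
    refine ⟨u, hu, ?_⟩
    rw [mem_Ivl, SimpleGraph.dist_self]; omega

end Pool.Agent.Helper79.PC
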